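import Pool.Agent.X164.MP.CritP

set_option autoImplicit false
set_option linter.unusedSectionVars false

/-!
# Residue classes without small primes, at points of pseudorandom families modulo a prime

Adapted from `Pool.Agent.X164.MP.critP`.
-/

namespace Pool.Agent.X67.AP

open Finset Filter
open Pool.Agent.X164.MP
open Pool.Agent.H256R2.SC (ff)

/-- an inverse of `p` to all small moduli -/
theorem exists_inv {p : ℕ} (hp : p.Prime) (M : ℕ) (hM : M < p) :
    ∃ w : ℤ, ∀ q : ℕ, 1 ≤ q → q ≤ M → (q : ℤ) ∣ w * p - 1 := by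
  have h1 : Nat.Coprime p (M.factorial) := by
    rw [hp.coprime_iff_not_dvd, hp.dvd_factorial]
    omega
  have h2 : IsCoprime (p : ℤ) ((M.factorial : ℕ) : ℤ) := Nat.isCoprime_iff_coprime.2 h1
  obtain ⟨a, b, hab⟩ := h2
  refine ⟨a, fun q hq hqM => ?_⟩
  have h3 : (q : ℤ) ∣ ((M.factorial : ℕ) : ℤ) := by
    exact_mod_cast Nat.dvd_factorial (by omega) hqM
  have h4 : a * p - 1 = -(b * ((M.factorial : ℕ) : ℤ)) := by linarith
  rw [h4]
  exact (dvd_mul_of_dvd_right h3 b).neg_right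

set_option maxHeartbeats 4000000 in
theorem critAP (r : ℕ) (hr : 1 ≤ r) (ε : ℝ) (hε : 0 < ε) : ∃ κ : ℝ, 0 < κ ∧ ∃ p₀ : ℕ,
    ∀ (p : ℕ) [Fact p.Prime], p₀ ≤ p → ∀ (ι : Type) (s : Finset ι) (x : ι → Fin r → ZMod p),
      s.Nonempty → (∀ h : Fin r → ZMod p, h ≠ 0 →
        ‖∑ i ∈ s, (ZMod.stdAddChar (∑ j, h j * x i j) : ℂ)‖ ≤ s.card * (p : ℝ) ^ (-ε)) →
      ∃ i ∈ s, ∀ j, x i j ≠ 0 ∧ ∀ k : ℕ, (k : ℝ) ≤ κ * ff p → ¬ ((x i j).val + k * p).Prime := by
  classical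
  obtain ⟨κ, hκ, X₀, hcrit⟩ := Pool.Agent.Y961.JR.critJ r hr
  have hrR : (1 : ℝ) ≤ r := by exact_mod_cast hr
  set δ : ℝ := min ε 1 with hδ
  have hδ0 : 0 < δ := lt_min hε one_pos
  have hδε : δ ≤ ε := min_le_left _ _
  have hδ1 : δ ≤ 1 := min_le_right _ _
  set θ : ℝ := δ / (8 * r) with hθ
  have hθ0 : 0 < θ := by positivity
  have hθr : (r : ℝ) * θ = δ / 8 := by rw [hθ]; field_simp
  have hθ1 : θ ≤ 1 / 8 := by
    rw [hθ, div_le_div_iff₀ (by positivity) (by norm_num)]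
    nlinarith
  have ev1 := (tendsto_rpow_atTop hθ0).eventually_ge_atTop X₀
  have ev2 := Pool.Agent.W147.PS.ff_compare θ hθ0 (by linarith)
  have ev3 : ∀ᶠ M : ℝ in atTop, 5 + Real.log M ≤ M ^ θ := by
    have h := (isLittleO_log_rpow_atTop hθ0).def (show (0 : ℝ) < 1 / 2 by norm_num)
    filter_upwards [h, eventually_ge_atTop (1 : ℝ),
      (tendsto_rpow_atTop hθ0).eventually_ge_atTop 10] with M h1 h2 h3
    rw [Real.norm_eq_abs, abs_of_nonneg (Real.log_nonneg h2), Real.norm_eq_abs,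
      abs_of_nonneg (by positivity)] at h1
    linarith
  have ev4 := Pool.Agent.W147.PS.ev_pow (δ / 8) (δ / 2) (2 ^ (r + 2) * (r + 1)) (by linarith)
  have ev5 : ∀ᶠ M : ℝ in atTop, (Real.log M) ^ 2 + M ^ (1 / 10 : ℝ) < Real.sqrt M := by
    have h := (isLittleO_log_rpow_atTop (show (0 : ℝ) < 1 / 10 by norm_num)).def
      (show (0 : ℝ) < 1 by norm_num)
    have h' := Pool.Agent.W147.PS.ev_pow (1 / 5) (1 / 2) 3 (by norm_num)
    filter_upwards [h, h', eventually_gt_atTop (1 : ℝ)] with M h1 h2 h3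
    have hM0 : (0 : ℝ) < M := by linarith
    rw [Real.norm_eq_abs, abs_of_nonneg (Real.log_nonneg h3.le), Real.norm_eq_abs,
      abs_of_nonneg (by positivity), one_mul] at h1
    have h4 : (Real.log M) ^ 2 ≤ M ^ (1 / 5 : ℝ) := by
      calc (Real.log M) ^ 2 ≤ (M ^ (1 / 10 : ℝ)) ^ 2 :=
            pow_le_pow_left₀ (Real.log_nonneg h3.le) h1 2
        _ = M ^ (1 / 5 : ℝ) := by
            rw [← Real.rpow_natCast, ← Real.rpow_mul hM0.le]
            norm_num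
    have h5 : M ^ (1 / 10 : ℝ) ≤ M ^ (1 / 5 : ℝ) :=
      Real.rpow_le_rpow_of_exponent_le h3.le (by norm_num)
    have h6 : (0 : ℝ) < M ^ (1 / 5 : ℝ) := by positivity
    rw [Real.sqrt_eq_rpow]
    linarith
  obtain ⟨M₀, hM₀⟩ := eventually_atTop.1 ((ev1.and ev2).and (ev3.and (ev4.and ev5)))
  refine ⟨κ * (θ / 32), by positivity, max ⌈M₀⌉₊ 16, ?_⟩
  intro p _ hp ι s x hs hx
  have hpp : p.Prime := Fact.out
  have : NeZero p := ⟨hpp.ne_zero⟩
  have hp16 : 16 ≤ p := (le_max_right _ _).trans hp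
  have hp1R : (1 : ℝ) < p := by exact_mod_cast hpp.one_lt
  have hp0R : (0 : ℝ) < p := by linarith
  have hpM : M₀ ≤ p := (Nat.le_ceil _).trans (by exact_mod_cast (le_max_left _ _).trans hp)
  obtain ⟨⟨E1, -, E2⟩, E3, E4, E5⟩ := hM₀ p hpM
  set X : ℝ := (p : ℝ) ^ θ with hX
  have hX1 : 1 ≤ X := Real.one_le_rpow hp1R.le hθ0.le
  have hX0 : 0 < X := by linarith
  have hXp : X ≤ p := by
    calc X ≤ (p : ℝ) ^ (1 : ℝ) := Real.rpow_le_rpow_of_exponent_le hp1R.le (by linarith)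
      _ = p := Real.rpow_one _
  have hXp2 : X ≤ (p : ℝ) ^ 2 := hXp.trans (by nlinarith)
  obtain ⟨hk, hc⟩ := hcrit X E1
  set L : ℕ := Nat.sqrt p with hL
  have hL2 : L * L ≤ p := Nat.sqrt_le p
  have hL3 : p < (L + 1) * (L + 1) := Nat.lt_succ_sqrt p
  have hL4 : 4 * L ≤ p := by
    have : 4 ≤ L := by
      rw [hL]
      exact Nat.le_sqrt.2 (by omega)
    calc 4 * L ≤ L * L := Nat.mul_le_mul_right _ this
      _ ≤ p := hL2
  have hLp : L < p := by omega
  set β : ℝ := ((p : ℝ) - 1 - L) / p with hβ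
  have hL4R : 4 * (L : ℝ) ≤ p := by exact_mod_cast hL4
  have hp16R : (16 : ℝ) ≤ p := by exact_mod_cast hp16
  have hβ1 : 1 / 2 ≤ β := by
    rw [hβ, le_div_iff₀ hp0R]
    linarith
  have hβ2 : β ≤ 1 := by
    rw [hβ, div_le_one hp0R]
    have : (0 : ℝ) ≤ L := Nat.cast_nonneg _
    linarith
  set S : ℝ := (s.card : ℝ) with hS
  have hS0 : 0 < S := by
    rw [hS]
    exact_mod_cast hs.card_pos
  set Λ : ℝ := 5 + Real.log p with hΛ
  have hΛ0 : 0 ≤ Λ := by
    have : 0 ≤ Real.log p := Real.log_nonneg hp1R.le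
    linarith
  set η : ℝ := r / p + (p : ℝ) ^ (-ε) * Λ ^ r with hη
  have hη0 : 0 ≤ η := by positivity
  -- the number of points in a box of classes
  have key : ∀ q : ℕ, 1 ≤ q → q < p → ∀ ρ : Fin r → ℤ,
      |((s.filter (fun i => ∀ j, x i j ∈ cls p L q (ρ j))).card : ℝ) - S * (β / q) ^ r| ≤
        S * η := by
    intro q hq hqp ρ
    have hqR : (1 : ℝ) ≤ q := by exact_mod_cast hq
    have h1 := count r s x (B := S * (p : ℝ) ^ (-ε)) (Λ := Λ) (by positivity) hx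
      (fun j => cls p L q (ρ j)) (fun j => cls_fc hLp hq hqp (ρ j))
    have h2 := prod_close r (fun j => ((cls p L q (ρ j)).card : ℝ) / p) (β / q) (1 / p)
      (fun j => by positivity) (fun j => by
        rw [div_le_one hp0R]
        have : (cls p L q (ρ j)).card ≤ p := by
          have := Finset.card_le_univ (cls p L q (ρ j))
          rwa [ZMod.card] at this
        exact_mod_cast this) (by positivity) (by
        rw [div_le_one (by linarith)]
        linarith) (fun j => by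
        have h3 := cls_card hLp hq hqp (ρ j)
        have e : ((cls p L q (ρ j)).card : ℝ) / p - β / q =
            (((cls p L q (ρ j)).card : ℝ) - ((p : ℝ) - 1 - L) / q) / p := by
          rw [hβ]
          field_simp
        rw [e, abs_div, abs_of_pos hp0R]
        exact div_le_div_of_nonneg_right h3 hp0R.le)
    have h3 : |S * ∏ j, ((cls p L q (ρ j)).card : ℝ) / p - S * (β / q) ^ r| ≤ S * (r * (1 / p)) := by
      rw [← mul_sub, abs_mul, abs_of_pos hS0]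
      exact mul_le_mul_of_nonneg_left h2 hS0.le
    have h4 := abs_sub_le ((s.filter (fun i => ∀ j, x i j ∈ cls p L q (ρ j))).card : ℝ)
      (S * ∏ j, ((cls p L q (ρ j)).card : ℝ) / p) (S * (β / q) ^ r)
    have h5 : S * (p : ℝ) ^ (-ε) * Λ ^ r + S * (r * (1 / p)) = S * η := by
      rw [hη]
      ring
    linarith
  -- the size of the error
  have hηb : 2 ^ (r + 2) * η ≤ (p : ℝ) ^ (-(δ / 2)) := by
    have g1 : (p : ℝ) ^ (-ε) ≤ (p : ℝ) ^ (-δ) :=
      Real.rpow_le_rpow_of_exponent_le hp1R.le (by linarith)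
    have g2 : Λ ^ r ≤ (p : ℝ) ^ (δ / 8) := by
      calc Λ ^ r ≤ ((p : ℝ) ^ θ) ^ r := pow_le_pow_left₀ hΛ0 E3 r
        _ = (p : ℝ) ^ (δ / 8) := by
            rw [← Real.rpow_natCast, ← Real.rpow_mul hp0R.le, mul_comm θ, hθr]
    have g3 : (1 : ℝ) ≤ (p : ℝ) ^ (δ / 8) := Real.one_le_rpow hp1R.le (by positivity)
    have g4 : (r : ℝ) / p ≤ (p : ℝ) ^ (-δ) * (r * (p : ℝ) ^ (δ / 8)) := by
      have : (p : ℝ)⁻¹ ≤ (p : ℝ) ^ (-δ) := by
        rw [← Real.rpow_neg_one]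
        exact Real.rpow_le_rpow_of_exponent_le hp1R.le (by linarith)
      calc (r : ℝ) / p = (p : ℝ)⁻¹ * (r * 1) := by rw [div_eq_mul_inv]; ring
        _ ≤ (p : ℝ) ^ (-δ) * (r * (p : ℝ) ^ (δ / 8)) :=
            mul_le_mul this (mul_le_mul_of_nonneg_left g3 (by positivity)) (by positivity)
              (by positivity)
    have g5 : (p : ℝ) ^ (-ε) * Λ ^ r ≤ (p : ℝ) ^ (-δ) * (p : ℝ) ^ (δ / 8) :=
      mul_le_mul g1 g2 (by positivity) (by positivity)
    have g6 : η ≤ (p : ℝ) ^ (-δ) * ((r + 1) * (p : ℝ) ^ (δ / 8)) := by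
      rw [hη]
      linarith
    calc 2 ^ (r + 2) * η ≤ 2 ^ (r + 2) * ((p : ℝ) ^ (-δ) * ((r + 1) * (p : ℝ) ^ (δ / 8))) :=
          mul_le_mul_of_nonneg_left g6 (by positivity)
      _ = (p : ℝ) ^ (-δ) * (2 ^ (r + 2) * (r + 1) * (p : ℝ) ^ (δ / 8)) := by ring
      _ ≤ (p : ℝ) ^ (-δ) * (p : ℝ) ^ (δ / 2) := mul_le_mul_of_nonneg_left E4 (by positivity)
      _ = (p : ℝ) ^ (-(δ / 2)) := by
          rw [← Real.rpow_add hp0R]
          congr 1
          ring
  have hone : (p : ℝ) ^ (-(δ / 2)) ≤ 1 := Real.rpow_le_one_of_one_le_of_nonpos hp1R.le (by linarith)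
  have hXr : (p : ℝ) ^ (-(δ / 2)) ≤ X ^ (-(2 * (r : ℝ))) := by
    rw [hX, ← Real.rpow_mul hp0R.le]
    refine Real.rpow_le_rpow_of_exponent_le hp1R.le ?_
    have : θ * -(2 * (r : ℝ)) = -(δ / 4) := by
      have : θ * -(2 * (r : ℝ)) = -2 * (r * θ) := by ring
      rw [this, hθr]
      ring
    rw [this]
    linarith
  -- the points above `L`
  set s' := s.filter (fun i => ∀ j, L < (x i j).val) with hs'
  have hs'eq : s' = s.filter (fun i => ∀ j, x i j ∈ cls p L 1 ((fun _ => 0 : Fin r → ℤ) j)) := by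
    rw [hs']
    refine Finset.filter_congr fun i _ => ?_
    constructor
    · intro h j
      exact mem_cls.2 ⟨h j, by simp⟩
    · intro h j
      exact (mem_cls.1 (h j)).1
  have h1 := key 1 le_rfl hpp.one_lt (fun _ => 0)
  rw [← hs'eq, Nat.cast_one, div_one] at h1
  have h2r : (0 : ℝ) < 2 ^ r := by positivity
  have hβr : 1 / 2 ^ r ≤ β ^ r := by
    rw [← one_div_pow]
    exact pow_le_pow_left₀ (by norm_num) hβ1 r
  have hηs : η * (4 * 2 ^ r) ≤ 1 := by
    have : 2 ^ (r + 2) * η = η * (4 * 2 ^ r) := by ring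
    rw [← this]
    exact hηb.trans hone
  have hs'big : S * (1 / (2 * 2 ^ r)) ≤ (s'.card : ℝ) := by
    have g1 := (abs_le.1 h1).1
    have g2 : S * (1 / 2 ^ r) ≤ S * β ^ r := mul_le_mul_of_nonneg_left hβr hS0.le
    have g3 : S * η ≤ S * (1 / (4 * 2 ^ r)) := by
      refine mul_le_mul_of_nonneg_left ?_ hS0.le
      rw [le_div_iff₀ (by positivity)]
      exact hηs
    have g4 : S * (1 / (2 * 2 ^ r)) + S * (1 / (4 * 2 ^ r)) ≤ S * (1 / 2 ^ r) := by
      have e1 : S * (1 / (2 * 2 ^ r)) = S * (1 / 2 ^ r) / 2 := by field_simp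
      have e2 : S * (1 / (4 * 2 ^ r)) = S * (1 / 2 ^ r) / 4 := by field_simp
      have e3 : 0 ≤ S * (1 / 2 ^ r) := by positivity
      rw [e1, e2]
      linarith
    linarith
  have hs'0 : (0 : ℝ) < s'.card := lt_of_lt_of_le (by positivity) hs'big
  have hs'ne : s'.Nonempty := Finset.card_pos.1 (by exact_mod_cast hs'0)
  have hX25 : X ^ (2 / 5 : ℝ) < p := by
    calc X ^ (2 / 5 : ℝ) = (p : ℝ) ^ (θ * (2 / 5)) := by rw [hX, ← Real.rpow_mul hp0R.le]
      _ < (p : ℝ) ^ (1 : ℝ) := Real.rpow_lt_rpow_of_exponent_lt hp1R (by linarith)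
      _ = p := Real.rpow_one _
  obtain ⟨w, hw⟩ := exists_inv hpp ⌊X ^ (2 / 5 : ℝ)⌋₊
    ((Nat.floor_lt (by positivity)).2 hX25)
  have hwq : ∀ q : ℕ, 1 ≤ q → (q : ℝ) ≤ X ^ (2 / 5 : ℝ) → ∀ a ρ : ℤ,
      (q : ℤ) ∣ a * w - ρ ↔ (q : ℤ) ∣ a - ρ * p := by
    intro q hq hqX a ρ
    obtain ⟨c, hc⟩ := hw q hq (Nat.le_floor hqX)
    constructor
    · rintro ⟨d, hd⟩
      refine ⟨d * p - a * c, ?_⟩
      have e1 : a - ρ * p = (a * w - ρ) * p - a * (w * p - 1) := by ring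
      rw [e1, hd, hc]
      ring
    · rintro ⟨d, hd⟩
      refine ⟨d * w + ρ * c, ?_⟩
      have e1 : a * w - ρ = (a - ρ * p) * w + ρ * (w * p - 1) := by ring
      rw [e1, hd, hc]
      ring
  obtain ⟨i, hi, hgap⟩ := hc ι s' (fun i j => ((x i j).val : ℤ) * w) hs'ne (by
    intro q hq hqX ρ
    have hqp : q < p := by
      have g1 : (q : ℝ) < p := by
        refine hqX.trans_lt ?_
        calc X ^ (2 / 5 : ℝ) = (p : ℝ) ^ (θ * (2 / 5)) := by rw [hX, ← Real.rpow_mul hp0R.le]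
          _ < (p : ℝ) ^ (1 : ℝ) := Real.rpow_lt_rpow_of_exponent_lt hp1R (by linarith)
          _ = p := Real.rpow_one _
      exact_mod_cast g1
    have hqR : (1 : ℝ) ≤ q := by exact_mod_cast hq
    have hqr : (1 : ℝ) ≤ (q : ℝ) ^ r := one_le_pow₀ hqR
    have heq : s'.filter (fun i => ∀ j, (q : ℤ) ∣ ((x i j).val : ℤ) * w - ρ j) =
        s.filter (fun i => ∀ j, x i j ∈ cls p L q (ρ j * p)) := by
      rw [hs', Finset.filter_filter]
      refine Finset.filter_congr fun i _ => ?_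
      constructor
      · rintro ⟨g1, g2⟩ j
        exact mem_cls.2 ⟨g1 j, (hwq q hq hqX _ _).1 (g2 j)⟩
      · intro h
        exact ⟨fun j => (mem_cls.1 (h j)).1, fun j => (hwq q hq hqX _ _).2 (mem_cls.1 (h j)).2⟩
    rw [heq]
    have h3 := key q hq hqp (fun j => ρ j * p)
    have h4 : |S * (β / q) ^ r - (s'.card : ℝ) / (q : ℝ) ^ r| ≤ S * η := by
      have e : S * (β / q) ^ r - (s'.card : ℝ) / (q : ℝ) ^ r =
          -((s'.card : ℝ) - S * β ^ r) / (q : ℝ) ^ r := by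
        rw [div_pow]
        ring
      rw [e, abs_div, abs_neg, abs_of_pos (by positivity : (0 : ℝ) < (q : ℝ) ^ r)]
      exact (div_le_self (abs_nonneg _) hqr).trans h1
    have h5 := abs_sub_le ((s.filter (fun i => ∀ j, x i j ∈ cls p L q (ρ j * p))).card : ℝ)
      (S * (β / q) ^ r) ((s'.card : ℝ) / (q : ℝ) ^ r)
    have h6 : 2 * (S * η) ≤ s'.card * X ^ (-(2 * (r : ℝ))) := by
      calc 2 * (S * η) = S * (1 / (2 * 2 ^ r)) * (2 ^ (r + 2) * η) := by
            rw [pow_add]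
            field_simp
        _ ≤ s'.card * X ^ (-(2 * (r : ℝ))) :=
            mul_le_mul hs'big (hηb.trans hXr) (by positivity) hs'0.le
    linarith)
  have hval : ∀ j, Real.sqrt p ≤ ((x i j).val : ℝ) := by
    intro j
    have g1 : L + 1 ≤ (x i j).val := (Finset.mem_filter.1 hi).2 j
    have g2 : Real.sqrt p ≤ (L : ℝ) + 1 := by
      rw [Real.sqrt_le_left (by positivity)]
      have : (p : ℝ) ≤ ((L : ℝ) + 1) * (L + 1) := by exact_mod_cast hL3.le
      nlinarith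
    have g3 : (L : ℝ) + 1 ≤ ((x i j).val : ℝ) := by exact_mod_cast g1
    linarith
  refine ⟨i, (Finset.mem_filter.1 hi).1, fun j => ⟨?_, fun k hk2 hprime => ?_⟩⟩
  · intro h0
    have h1 := hval j
    rw [h0, ZMod.val_zero, Nat.cast_zero] at h1
    have : 0 < Real.sqrt p := Real.sqrt_pos.2 hp0R
    linarith
  have hff : κ * (θ / 32) * ff p ≤ κ * ff X := by
    have := (E2 X le_rfl hXp2).1
    have e : κ * (θ / 32) * ff p = κ * (θ / 32 * ff p) := by ring
    rw [e]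
    exact mul_le_mul_of_nonneg_left this hκ.le
  obtain ⟨p', hp', hp'X, hdvd⟩ := hgap j (((x i j).val : ℤ) * w + k) (by
    push_cast
    rw [add_sub_cancel_left, abs_of_nonneg (Nat.cast_nonneg k)]
    linarith)
  have hXs : X ^ (1 / 10 : ℝ) ≤ (p : ℝ) ^ (1 / 10 : ℝ) :=
    Real.rpow_le_rpow hX0.le hXp (by norm_num)
  have hX2 : X ^ (1 / 10 : ℝ) ≤ X ^ (2 / 5 : ℝ) :=
    Real.rpow_le_rpow_of_exponent_le hX1 (by norm_num)
  have hdvd2 : (p' : ℤ) ∣ ((x i j).val : ℤ) + k * p := by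
    have h1 := (hwq p' hp'.one_lt.le (hp'X.trans hX2) ((x i j).val : ℤ) (-(k : ℤ))).1 (by
      rw [sub_neg_eq_add]
      exact hdvd)
    have e : ((x i j).val : ℤ) - -(k : ℤ) * p = ((x i j).val : ℤ) + k * p := by ring
    rwa [e] at h1
  have hdvd3 : p' ∣ (x i j).val + k * p := by exact_mod_cast hdvd2
  have hpq : p' = (x i j).val + k * p := (Nat.prime_dvd_prime_iff_eq hp' hprime).1 hdvd3
  have h7 : ((x i j).val : ℝ) ≤ p' := by
    rw [hpq]
    push_cast
    have : (0 : ℝ) ≤ (k : ℝ) * p := by positivity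
    linarith
  have h8 := hval j
  have h9 : 0 ≤ (Real.log p) ^ 2 := by positivity
  linarith

end Pool.Agent.X67.AP
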