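import Pool.Agent.X67.AP.CritAP
import Pool.Agent.X67.GP.Prog

set_option autoImplicit false

/-!
# Classes with large least prime at points of geometric progressions, cosets, almost periodic sets
-/

namespace Pool.Agent.X67.AP

open Finset Polynomial Filter
open Pool.Agent.X164.MP
open Pool.Agent.X67.GP
open Pool.Agent.Y943.Fu
open Pool.Agent.H256R2.SC (ff)

/-- from composite terms to least primes -/
theorem least {p : ℕ} [Fact p.Prime] {κ : ℝ} {y : ZMod p}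
    (h : ∀ k : ℕ, (k : ℝ) ≤ κ * ff p → ¬ (y.val + k * p).Prime) (q : ℕ) (hq : q.Prime)
    (hqy : (q : ZMod p) = y) : κ * (p * ff p) < q := by
  have hpp : p.Prime := Fact.out
  have hp0 : (0 : ℝ) < p := by exact_mod_cast hpp.pos
  by_contra hcon
  push Not at hcon
  have h1 : y.val = q % p := by rw [← hqy, ZMod.val_natCast]
  refine h (q / p) ?_ (by
    rw [h1, mul_comm]
    rwa [Nat.mod_add_div])
  have h2 : ((q / p : ℕ) : ℝ) * p ≤ q := by exact_mod_cast Nat.div_mul_le_self q p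
  have h3 : ((q / p : ℕ) : ℝ) * p ≤ κ * ff p * p := by linarith
  exact le_of_mul_le_mul_right h3 hp0

/-- the criterion in terms of least primes -/
theorem critLP (r : ℕ) (hr : 1 ≤ r) (ε : ℝ) (hε : 0 < ε) : ∃ κ : ℝ, 0 < κ ∧ ∃ p₀ : ℕ,
    ∀ (p : ℕ) [Fact p.Prime], p₀ ≤ p → ∀ (ι : Type) (s : Finset ι) (x : ι → Fin r → ZMod p),
      s.Nonempty → (∀ h : Fin r → ZMod p, h ≠ 0 →
        ‖∑ i ∈ s, (ZMod.stdAddChar (∑ j, h j * x i j) : ℂ)‖ ≤ s.card * (p : ℝ) ^ (-ε)) →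
      ∃ i ∈ s, ∀ j, x i j ≠ 0 ∧ ∀ q : ℕ, q.Prime → (q : ZMod p) = x i j →
        κ * (p * ff p) < q := by
  obtain ⟨κ, hκ, p₀, h⟩ := critAP r hr ε hε
  refine ⟨κ, hκ, p₀, fun p _ hp ι s x hs hx => ?_⟩
  obtain ⟨i, hi, h2⟩ := h p hp ι s x hs hx
  exact ⟨i, hi, fun j => ⟨(h2 j).1, least (h2 j).2⟩⟩

/-- **record gaps around polynomial values at a point of a set with almost periods** -/
theorem almost_inv_least (r k : ℕ) (hr : 1 ≤ r) (ε : ℝ) (hε : 0 < ε) : ∃ κ : ℝ, 0 < κ ∧ ∃ p₀ : ℕ,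
    ∀ (p : ℕ) [Fact p.Prime], p₀ ≤ p → ∀ (S B : Finset (ZMod p)) (F : Fin r → (ZMod p)[X]),
      (∀ j, (F j).natDegree ≤ k) →
      (∀ h : Fin r → ZMod p, h ≠ 0 → 1 ≤ (∑ j, C (h j) * F j).natDegree) →
      (p : ℝ) ^ (1 + ε) ≤ S.card * B.card → B.card ≤ S.card →
      (∀ b ∈ B, b ≠ 0 ∧
        ((S \ S.image (fun x => b * x)).card : ℝ) ≤ (p : ℝ) ^ (-ε) * S.card) →
      ∃ x ∈ S, ∀ j, (F j).eval x ≠ 0 ∧ ∀ q : ℕ, q.Prime → (q : ZMod p) = (F j).eval x →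
        κ * (p * ff p) < q := by
  obtain ⟨κ, hκ, p₀, h⟩ := critLP r hr (ε / 16) (by positivity)
  have ev : ∀ᶠ p : ℕ in atTop, (2 : ℝ) * k ≤ (p : ℝ) ^ (ε / 4) ∧ (3 : ℝ) ≤ (p : ℝ) ^ (ε / 16) :=
    (((tendsto_rpow_atTop (by positivity : 0 < ε / 4)).comp
      tendsto_natCast_atTop_atTop).eventually_ge_atTop _).and
    (((tendsto_rpow_atTop (by positivity : 0 < ε / 16)).comp
      tendsto_natCast_atTop_atTop).eventually_ge_atTop _)
  obtain ⟨p₁, hp₁⟩ := eventually_atTop.1 ev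
  refine ⟨κ, hκ, max (max p₀ p₁) (k + 1), ?_⟩
  intro p _ hp S B F hF hlin hSB hle hB
  have hpp : p.Prime := Fact.out
  have hp0 : (0 : ℝ) < p := by exact_mod_cast hpp.pos
  obtain ⟨e1, e2⟩ := hp₁ p ((le_max_right _ _).trans ((le_max_left _ _).trans hp))
  have hkp : k < p := (le_max_right _ _).trans hp
  have hne : S.Nonempty := by
    rw [Finset.nonempty_iff_ne_empty]
    rintro rfl
    rw [Finset.card_empty, Nat.cast_zero, zero_mul] at hSB
    exact absurd hSB (not_le.2 (by positivity))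
  refine h p ((le_max_left _ _).trans ((le_max_left _ _).trans hp)) (ZMod p) S
    (fun x j => (F j).eval x) hne ?_
  intro c hc
  have hG : ∀ x : ZMod p, ∑ j, c j * (F j).eval x = (∑ j, C (c j) * F j).eval x := by
    intro x
    rw [eval_finset_sum]
    exact Finset.sum_congr rfl fun j _ => by rw [eval_mul, eval_C]
  simp only [hG]
  refine almost_inv hkp hε e1 e2 _ (hlin c hc) ?_ S B hSB hle hB
  refine natDegree_sum_le_of_forall_le _ _ fun j _ => ?_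
  exact (natDegree_C_mul_le _ _).trans (hF j)

/-- **geometric progressions** -/
theorem gp_least (r k : ℕ) (hr : 1 ≤ r) (ε : ℝ) (hε : 0 < ε) : ∃ κ : ℝ, 0 < κ ∧ ∃ p₀ : ℕ,
    ∀ (p : ℕ) [Fact p.Prime], p₀ ≤ p → ∀ (θ c : ZMod p) (M : ℕ) (F : Fin r → (ZMod p)[X]),
      θ ≠ 0 → c ≠ 0 → M ≤ orderOf θ → (p : ℝ) ^ (1 / 2 + ε) ≤ M →
      (∀ j, (F j).natDegree ≤ k) →
      (∀ h : Fin r → ZMod p, h ≠ 0 → 1 ≤ (∑ j, C (h j) * F j).natDegree) →
      ∃ l : ℕ, l < M ∧ ∀ j, (F j).eval (c * θ ^ l) ≠ 0 ∧ ∀ q : ℕ, q.Prime →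
        (q : ZMod p) = (F j).eval (c * θ ^ l) → κ * (p * ff p) < q := by
  obtain ⟨κ, hκ, p₀, h⟩ := almost_inv_least r k hr (ε / 2) (by positivity)
  have ev : ∀ᶠ p : ℕ in atTop, (2 : ℝ) ≤ (p : ℝ) ^ ε :=
    ((tendsto_rpow_atTop hε).comp tendsto_natCast_atTop_atTop).eventually_ge_atTop _
  obtain ⟨p₁, hp₁⟩ := eventually_atTop.1 ev
  refine ⟨κ, hκ, max p₀ p₁, ?_⟩
  intro p _ hp θ c M F hθ hc hM hMp hF hlin
  have hpp : p.Prime := Fact.out
  have hp0 : (0 : ℝ) < p := by exact_mod_cast hpp.pos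
  have hp1 : (1 : ℝ) ≤ p := by exact_mod_cast hpp.one_lt.le
  have h2 := hp₁ p ((le_max_right _ _).trans hp)
  set K : ℕ := ⌊(M : ℝ) * (p : ℝ) ^ (-(ε / 2))⌋₊ with hK
  have hy0 : 0 ≤ (M : ℝ) * (p : ℝ) ^ (-(ε / 2)) := by positivity
  have hKle : (K : ℝ) ≤ (M : ℝ) * (p : ℝ) ^ (-(ε / 2)) := Nat.floor_le hy0
  have hpe : (p : ℝ) ^ (-(ε / 2)) ≤ 1 := Real.rpow_le_one_of_one_le_of_nonpos hp1 (by linarith)
  have hKM : K ≤ M := by
    have : (K : ℝ) ≤ M := hKle.trans (mul_le_of_le_one_right (Nat.cast_nonneg _) hpe)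
    exact_mod_cast this
  have hy1 : 1 ≤ (M : ℝ) * (p : ℝ) ^ (-(ε / 2)) := by
    calc (1 : ℝ) ≤ (p : ℝ) ^ (1 / 2 + ε + -(ε / 2)) := Real.one_le_rpow hp1 (by linarith)
      _ = (p : ℝ) ^ (1 / 2 + ε) * (p : ℝ) ^ (-(ε / 2)) := Real.rpow_add hp0 _ _
      _ ≤ M * (p : ℝ) ^ (-(ε / 2)) := by gcongr
  have hKge : (M : ℝ) * (p : ℝ) ^ (-(ε / 2)) / 2 ≤ K := by
    have h3 := Nat.lt_floor_add_one ((M : ℝ) * (p : ℝ) ^ (-(ε / 2)))
    rw [← hK] at h3
    have h4 : 1 ≤ K := Nat.le_floor (by rw [Nat.cast_one]; exact hy1)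
    have h5 : (1 : ℝ) ≤ K := by exact_mod_cast h4
    linarith
  obtain ⟨x, hx, hx2⟩ := h p ((le_max_left _ _).trans hp) (gp c θ M) (gp 1 θ K) F hF hlin
    (by
      rw [card_gp hc hM, card_gp one_ne_zero (hKM.trans hM)]
      calc (p : ℝ) ^ (1 + ε / 2) ≤ (p : ℝ) ^ (1 + ε / 2) * ((p : ℝ) ^ ε / 2) := by
            apply le_mul_of_one_le_right (by positivity)
            linarith
        _ = (p : ℝ) ^ (1 / 2 + ε) * ((p : ℝ) ^ (1 / 2 + ε) * (p : ℝ) ^ (-(ε / 2)) / 2) := by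
            have e1 : (p : ℝ) ^ (1 / 2 + ε) * ((p : ℝ) ^ (1 / 2 + ε) * (p : ℝ) ^ (-(ε / 2)) / 2) =
                ((p : ℝ) ^ (1 / 2 + ε) * ((p : ℝ) ^ (1 / 2 + ε) * (p : ℝ) ^ (-(ε / 2)))) / 2 := by
              ring
            rw [e1, ← Real.rpow_add hp0, ← Real.rpow_add hp0]
            have e2 : (p : ℝ) ^ (1 + ε / 2) * ((p : ℝ) ^ ε / 2) =
                ((p : ℝ) ^ (1 + ε / 2) * (p : ℝ) ^ ε) / 2 := by ring
            rw [e2, ← Real.rpow_add hp0]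
            congr 2
            ring
        _ ≤ M * K := by
            refine mul_le_mul hMp ?_ (by positivity) (Nat.cast_nonneg _)
            refine le_trans ?_ hKge
            gcongr)
    (by
      rw [card_gp hc hM, card_gp one_ne_zero (hKM.trans hM)]
      exact hKM)
    (by
      intro b hb
      unfold gp at hb
      obtain ⟨i, hi, rfl⟩ := mem_image.1 hb
      rw [mem_range] at hi
      refine ⟨by rw [one_mul]; exact pow_ne_zero _ hθ, ?_⟩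
      have h3 := gp_sdiff c θ M i
      rw [card_gp hc hM]
      calc ((gp c θ M \ (gp c θ M).image (fun x => 1 * θ ^ i * x)).card : ℝ) ≤ i := by
            have : (fun x : ZMod p => 1 * θ ^ i * x) = fun x => θ ^ i * x := by
              funext x
              rw [one_mul]
            rw [this]
            exact_mod_cast h3
        _ ≤ K := by exact_mod_cast hi.le
        _ ≤ (p : ℝ) ^ (-(ε / 2)) * M := by rw [mul_comm]; exact hKle)
  unfold gp at hx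
  obtain ⟨l, hl, rfl⟩ := mem_image.1 hx
  exact ⟨l, mem_range.1 hl, hx2⟩

/-- **record gaps around a point of an affine image of a subgroup** -/
theorem sub_least (ε : ℝ) (hε : 0 < ε) : ∃ κ : ℝ, 0 < κ ∧ ∃ p₀ : ℕ,
    ∀ (p : ℕ) [Fact p.Prime], p₀ ≤ p → ∀ θ c a : ZMod p, θ ≠ 0 → c ≠ 0 →
      (p : ℝ) ^ (3 / 8 + ε) ≤ orderOf θ →
      ∃ l : ℕ, l < orderOf θ ∧ a + c * θ ^ l ≠ 0 ∧ ∀ q : ℕ, q.Prime →
        (q : ZMod p) = a + c * θ ^ l → κ * (p * ff p) < q := by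
  set δ : ℝ := min ε 1 with hδ
  have hδ0 : 0 < δ := lt_min hε one_pos
  have hδε : δ ≤ ε := min_le_left _ _
  have hδ1 : δ ≤ 1 := min_le_right _ _
  obtain ⟨κ, hκ, p₀, h⟩ := critLP 1 le_rfl (δ / 4) (by positivity)
  have ev : ∀ᶠ p : ℕ in atTop, (2 : ℝ) ≤ (p : ℝ) ^ (δ / 12) :=
    ((tendsto_rpow_atTop (by positivity : 0 < δ / 12)).comp
      tendsto_natCast_atTop_atTop).eventually_ge_atTop _
  obtain ⟨p₁, hp₁⟩ := eventually_atTop.1 ev
  refine ⟨κ, hκ, max p₀ p₁, ?_⟩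
  intro p _ hp θ c a hθ hc hT
  have hpp : p.Prime := Fact.out
  have hp0 : (0 : ℝ) < p := by exact_mod_cast hpp.pos
  have hp1 : (1 : ℝ) ≤ p := by exact_mod_cast hpp.one_lt.le
  have hord : 1 ≤ orderOf θ := by
    have h1 : (0 : ℝ) < orderOf θ := lt_of_lt_of_le (by positivity) hT
    exact_mod_cast h1
  have hT' : (p : ℝ) ^ (3 / 8 + δ) ≤ orderOf θ :=
    (Real.rpow_le_rpow_of_exponent_le hp1 (by linarith)).trans hT
  obtain ⟨l, hl, hl2⟩ := h p ((le_max_left _ _).trans hp) ℕ (range (orderOf θ))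
    (fun l _ => a + c * θ ^ l) (by rw [nonempty_range_iff]; omega) (by
      intro k hk
      have hk0 : k 0 ≠ 0 := by
        intro h0
        apply hk
        funext j
        rw [Subsingleton.elim j 0, h0]
        rfl
      have e : ∀ l : ℕ, (ZMod.stdAddChar (∑ j : Fin 1, k j * (a + c * θ ^ l)) : ℂ) =
          ZMod.stdAddChar (k 0 * a) * ZMod.stdAddChar (k 0 * c * θ ^ l) := by
        intro l
        rw [← AddChar.map_add_eq_mul]
        congr 1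
        rw [Fin.sum_univ_one]
        ring
      simp only [e]
      rw [← mul_sum, norm_mul, norm_psi, one_mul, card_range]
      exact sub_saving hδ0 hδ1 (hp₁ p ((le_max_right _ _).trans hp)) hθ hord hT'
        (mul_ne_zero hk0 hc))
  exact ⟨l, mem_range.1 hl, (hl2 0).1, fun q hq => (hl2 0).2 q hq⟩

end Pool.Agent.X67.AP
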