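import Pool.Agent.X67.AP.Box
import Pool.Agent.X164.MP.Hyp
import Pool.Agent.X164.MP.DlogMain

set_option autoImplicit false
set_option linter.unusedSectionVars false

/-!
# Classes with large least primes: modular hyperbolas and discrete logarithms

Adapted from `Pool.Agent.X164.MP.hyperbola` and `Pool.Agent.X164.MP.dlog_main`.
-/

namespace Pool.Agent.X67.AP

open Finset Filter
open Pool.Agent.X164.MP
open Pool.Agent.H256R2.SC (ff)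

theorem hyperbola_least (ε : ℝ) (hε : 0 < ε) : ∃ κ : ℝ, 0 < κ ∧ ∃ p₀ : ℕ,
    ∀ p : ℕ, p.Prime → p₀ ≤ p → ∀ a L₁ R₁ L₂ R₂ : ℕ, ¬ p ∣ a → L₁ ≤ R₁ → R₁ < p → L₂ ≤ R₂ →
      R₂ < p → (p : ℝ) ^ (3 / 2 + ε) ≤ ((R₁ - L₁ : ℕ) : ℝ) * ((R₂ - L₂ : ℕ) : ℝ) →
      ∃ x y : ℕ, L₁ < x ∧ x ≤ R₁ ∧ L₂ < y ∧ y ≤ R₂ ∧ x * y ≡ a [MOD p] ∧
        ∀ q : ℕ, q.Prime → (q ≡ x [MOD p] ∨ q ≡ y [MOD p]) → κ * (p * ff p) < q := by
  set δ : ℝ := min (ε / 2) (1 / 2) with hδ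
  have hδ0 : 0 < δ := lt_min (by linarith) (by norm_num)
  have hδ1 : δ ≤ 1 / 2 := min_le_right _ _
  have hδε : δ ≤ ε / 2 := min_le_left _ _
  obtain ⟨κ, hκ, p₀, hcrit⟩ := critBoxLP 2 (by norm_num) δ hδ0
  obtain ⟨M₁, hM₁⟩ := eventually_atTop.1 (Pool.Agent.W147.PS.ev_pow (5 / 2 + δ) (5 / 2 + ε) 4
    (by linarith))
  refine ⟨κ, hκ, max p₀ (max ⌈M₁⌉₊ 2), ?_⟩
  intro p hpp hp a L₁ R₁ L₂ R₂ hpa h1 h2 h3 h4 harea
  haveI : Fact p.Prime := ⟨hpp⟩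
  have : NeZero p := ⟨hpp.ne_zero⟩
  have hp1R : (1 : ℝ) < p := by exact_mod_cast hpp.one_lt
  have hp0R : (0 : ℝ) < p := by linarith
  have hp2R : (2 : ℝ) ≤ p := by exact_mod_cast hpp.two_le
  have hpM : M₁ ≤ p := (Nat.le_ceil _).trans (by
    exact_mod_cast ((le_max_left _ _).trans (le_max_right _ _)).trans hp)
  have haZ : (a : ZMod p) ≠ 0 := by
    rw [Ne, ZMod.natCast_eq_zero_iff]
    exact hpa
  set l₁ : ℝ := (R₁ : ℝ) - L₁ with hl₁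
  set l₂ : ℝ := (R₂ : ℝ) - L₂ with hl₂
  have c1 : ((R₁ - L₁ : ℕ) : ℝ) = l₁ := Nat.cast_sub h1
  have c2 : ((R₂ - L₂ : ℕ) : ℝ) = l₂ := Nat.cast_sub h3
  rw [c1, c2] at harea
  have hR₁ : (R₁ : ℝ) < p := by exact_mod_cast h2
  have hR₂ : (R₂ : ℝ) < p := by exact_mod_cast h4
  have hL₁ : (0 : ℝ) ≤ L₁ := Nat.cast_nonneg _
  have hL₂ : (0 : ℝ) ≤ L₂ := Nat.cast_nonneg _
  have b1 : l₁ ≤ p := by linarith
  have b2 : l₂ ≤ p := by linarith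
  have b3 : 0 ≤ l₁ := by rw [← c1]; exact Nat.cast_nonneg _
  have b4 : 0 ≤ l₂ := by rw [← c2]; exact Nat.cast_nonneg _
  have hpow : (p : ℝ) ^ (3 / 2 + ε) = p * (p : ℝ) ^ (1 / 2 + ε) := by
    rw [← Real.rpow_one_add' hp0R.le (by linarith)]
    congr 1
    ring
  have hhalf : (p : ℝ) ^ δ ≤ (p : ℝ) ^ (1 / 2 + ε) :=
    Real.rpow_le_rpow_of_exponent_le hp1R.le (by linarith)
  have w1 : (p : ℝ) ^ δ ≤ l₁ := by
    refine hhalf.trans ?_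
    have : p * (p : ℝ) ^ (1 / 2 + ε) ≤ p * l₁ := by
      rw [← hpow]
      refine harea.trans ?_
      rw [mul_comm]
      exact mul_le_mul_of_nonneg_right b2 b3
    exact le_of_mul_le_mul_left this hp0R
  have w2 : (p : ℝ) ^ δ ≤ l₂ := by
    refine hhalf.trans ?_
    have : p * (p : ℝ) ^ (1 / 2 + ε) ≤ p * l₂ := by
      rw [← hpow]
      exact harea.trans (mul_le_mul_of_nonneg_right b1 b4)
    exact le_of_mul_le_mul_left this hp0R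
  obtain ⟨x, -, hx⟩ := hcrit p ((le_max_left _ _).trans hp) (ZMod p)ˣ Finset.univ
    (fun x => ![(x : ZMod p), (a : ZMod p) * ((x⁻¹ : (ZMod p)ˣ) : ZMod p)]) ![L₁, L₂] ![R₁, R₂]
    (2 * Real.sqrt p) ⟨1, Finset.mem_univ _⟩ (by positivity)
    (by
      intro j
      fin_cases j
      · exact h2
      · exact h4)
    (by
      intro j
      fin_cases j
      · exact w1
      · exact w2)
    (fun h hh => hyp_sum _ haZ h hh)
    (by
      rw [Fin.prod_univ_two]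
      simp only [Matrix.cons_val_zero, Matrix.cons_val_one]
      have hcard : ((Finset.univ : Finset (ZMod p)ˣ).card : ℝ) = p - 1 := by
        rw [Finset.card_univ, ZMod.card_units, Nat.cast_sub hpp.one_lt.le, Nat.cast_one]
      rw [hcard, ← hl₁, ← hl₂, Real.sqrt_eq_rpow]
      have g1 := hM₁ p hpM
      have g2 : 2 * (p : ℝ) ^ (1 / 2 : ℝ) * (p : ℝ) ^ (((2 : ℕ) : ℝ) + δ) =
          2 * (p : ℝ) ^ (5 / 2 + δ) := by
        rw [mul_assoc, ← Real.rpow_add hp0R]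
        congr 2
        push_cast
        ring
      have g3 : (p : ℝ) ^ (5 / 2 + ε) = p * (p : ℝ) ^ (3 / 2 + ε) := by
        rw [← Real.rpow_one_add' hp0R.le (by linarith)]
        congr 1
        ring
      rw [g2]
      calc 2 * (p : ℝ) ^ (5 / 2 + δ) ≤ (p : ℝ) ^ (5 / 2 + ε) / 2 := by linarith
        _ = p / 2 * (p : ℝ) ^ (3 / 2 + ε) := by rw [g3]; ring
        _ ≤ (p - 1) * (l₁ * l₂) := mul_le_mul (by linarith) harea (by positivity) (by linarith))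
  have hx0 := hx 0
  have hx1 := hx 1
  simp only [Matrix.cons_val_zero, Matrix.cons_val_one] at hx0 hx1
  refine ⟨(x : ZMod p).val, ((a : ZMod p) * ((x⁻¹ : (ZMod p)ˣ) : ZMod p)).val, hx0.1, hx0.2.1,
    hx1.1, hx1.2.1, ?_, ?_⟩
  swap
  · rintro q hq (hqx | hqx)
    · refine hx0.2.2 q hq ?_
      rw [← ZMod.natCast_eq_natCast_iff, ZMod.natCast_zmod_val] at hqx
      exact hqx
    · refine hx1.2.2 q hq ?_
      rw [← ZMod.natCast_eq_natCast_iff, ZMod.natCast_zmod_val] at hqx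
      exact hqx
  rw [← ZMod.natCast_eq_natCast_iff, Nat.cast_mul, ZMod.natCast_zmod_val, ZMod.natCast_zmod_val]
  have : (x : ZMod p) * ((x⁻¹ : (ZMod p)ˣ) : ZMod p) = 1 := Units.mul_inv x
  linear_combination (a : ZMod p) * this

theorem dlog_least (ε : ℝ) (hε : 0 < ε) : ∃ κ : ℝ, 0 < κ ∧ ∃ p₀ : ℕ,
    ∀ (p : ℕ) [Fact p.Prime], p₀ ≤ p → ∀ γ : ZMod p, orderOf γ = p - 1 →
      ∀ L₁ R₁ L₂ R₂ : ℕ, L₁ ≤ R₁ → R₁ < p → L₂ ≤ R₂ → R₂ < p →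
      (p : ℝ) ^ (3 / 2 + ε) ≤ ((R₁ - L₁ : ℕ) : ℝ) * ((R₂ - L₂ : ℕ) : ℝ) →
      ∃ n x : ℕ, L₁ < n ∧ n ≤ R₁ ∧ L₂ < x ∧ x ≤ R₂ ∧ γ ^ n = (x : ZMod p) ∧
        ∀ q : ℕ, q.Prime → (q ≡ n [MOD p] ∨ q ≡ x [MOD p]) → κ * (p * ff p) < q := by
  set δ : ℝ := min (ε / 2) (1 / 2) with hδ
  have hδ0 : 0 < δ := lt_min (by linarith) (by norm_num)
  have hδ1 : δ ≤ 1 / 2 := min_le_right _ _
  have hδε : δ ≤ ε / 2 := min_le_left _ _
  obtain ⟨κ, hκ, p₀, hcrit⟩ := critBoxLP 2 (by norm_num) δ hδ0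
  obtain ⟨M₁, hM₁⟩ := log_ev (ε / 2) (by positivity)
  refine ⟨κ, hκ, max p₀ (max ⌈M₁⌉₊ 2), ?_⟩
  intro p hfp hp γ hγ L₁ R₁ L₂ R₂ h1 h2 h3 h4 harea
  have hpp : p.Prime := Fact.out
  have : NeZero p := ⟨hpp.ne_zero⟩
  have hp1R : (1 : ℝ) < p := by exact_mod_cast hpp.one_lt
  have hp0R : (0 : ℝ) < p := by linarith
  have hp2R : (2 : ℝ) ≤ p := by exact_mod_cast hpp.two_le
  have hpM : M₁ ≤ p := (Nat.le_ceil _).trans (by
    exact_mod_cast ((le_max_left _ _).trans (le_max_right _ _)).trans hp)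
  set l₁ : ℝ := (R₁ : ℝ) - L₁ with hl₁
  set l₂ : ℝ := (R₂ : ℝ) - L₂ with hl₂
  have c1 : ((R₁ - L₁ : ℕ) : ℝ) = l₁ := Nat.cast_sub h1
  have c2 : ((R₂ - L₂ : ℕ) : ℝ) = l₂ := Nat.cast_sub h3
  rw [c1, c2] at harea
  have hR₁ : (R₁ : ℝ) < p := by exact_mod_cast h2
  have hR₂ : (R₂ : ℝ) < p := by exact_mod_cast h4
  have hL₁ : (0 : ℝ) ≤ L₁ := Nat.cast_nonneg _
  have hL₂ : (0 : ℝ) ≤ L₂ := Nat.cast_nonneg _
  have b1 : l₁ ≤ p := by linarith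
  have b2 : l₂ ≤ p := by linarith
  have b3 : 0 ≤ l₁ := by rw [← c1]; exact Nat.cast_nonneg _
  have b4 : 0 ≤ l₂ := by rw [← c2]; exact Nat.cast_nonneg _
  have hpow : (p : ℝ) ^ (3 / 2 + ε) = p * (p : ℝ) ^ (1 / 2 + ε) := by
    rw [← Real.rpow_one_add' hp0R.le (by linarith)]
    congr 1
    ring
  have hhalf : (p : ℝ) ^ δ ≤ (p : ℝ) ^ (1 / 2 + ε) :=
    Real.rpow_le_rpow_of_exponent_le hp1R.le (by linarith)
  have w1 : (p : ℝ) ^ δ ≤ l₁ := by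
    refine hhalf.trans ?_
    have : p * (p : ℝ) ^ (1 / 2 + ε) ≤ p * l₁ := by
      rw [← hpow]
      refine harea.trans ?_
      rw [mul_comm]
      exact mul_le_mul_of_nonneg_right b2 b3
    exact le_of_mul_le_mul_left this hp0R
  have w2 : (p : ℝ) ^ δ ≤ l₂ := by
    refine hhalf.trans ?_
    have : p * (p : ℝ) ^ (1 / 2 + ε) ≤ p * l₂ := by
      rw [← hpow]
      exact harea.trans (mul_le_mul_of_nonneg_right b1 b4)
    exact le_of_mul_le_mul_left this hp0R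
  have hlog : 0 ≤ Real.log p := Real.log_nonneg hp1R.le
  obtain ⟨n, hn, hx⟩ := hcrit p ((le_max_left _ _).trans hp) ℕ (Ioc 0 (p - 1))
    (fun n => ![(n : ZMod p), γ ^ n]) ![L₁, L₂] ![R₁, R₂]
    (Real.sqrt p * (3 + Real.log p)) ⟨1, Finset.mem_Ioc.2 ⟨by norm_num, by
      have := hpp.two_le; omega⟩⟩ (by positivity)
    (by
      intro j
      fin_cases j
      · exact h2
      · exact h4)
    (by
      intro j
      fin_cases j
      · exact w1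
      · exact w2)
    (fun h hh => dlog_bound γ hγ h hh)
    (by
      rw [Fin.prod_univ_two]
      simp only [Matrix.cons_val_zero, Matrix.cons_val_one]
      have hcard : ((Ioc 0 (p - 1)).card : ℝ) = p - 1 := by
        rw [Nat.card_Ioc, Nat.sub_zero, Nat.cast_sub hpp.one_lt.le, Nat.cast_one]
      rw [hcard, ← hl₁, ← hl₂, Real.sqrt_eq_rpow]
      have g1 := hM₁ p hpM
      have g2 : (p : ℝ) ^ (1 / 2 : ℝ) * (3 + Real.log p) * (p : ℝ) ^ (((2 : ℕ) : ℝ) + δ) =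
          (3 + Real.log p) * (p : ℝ) ^ (5 / 2 + δ) := by
        have e0 := Real.rpow_add hp0R (1 / 2) (((2 : ℕ) : ℝ) + δ)
        rw [show (5 : ℝ) / 2 + δ = 1 / 2 + (((2 : ℕ) : ℝ) + δ) by push_cast; ring, e0]
        ring
      have g3 : (p : ℝ) ^ (5 / 2 + ε) = p * (p : ℝ) ^ (3 / 2 + ε) := by
        rw [← Real.rpow_one_add' hp0R.le (by linarith)]
        congr 1
        ring
      have g4 : (p : ℝ) ^ (ε / 2) * (p : ℝ) ^ (5 / 2 + δ) ≤ (p : ℝ) ^ (5 / 2 + ε) := by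
        rw [← Real.rpow_add hp0R]
        exact Real.rpow_le_rpow_of_exponent_le hp1R.le (by linarith)
      rw [g2]
      calc (3 + Real.log p) * (p : ℝ) ^ (5 / 2 + δ) =
          (2 * (3 + Real.log p)) * (p : ℝ) ^ (5 / 2 + δ) / 2 := by ring
        _ ≤ (p : ℝ) ^ (ε / 2) * (p : ℝ) ^ (5 / 2 + δ) / 2 := by gcongr
        _ ≤ (p : ℝ) ^ (5 / 2 + ε) / 2 := by gcongr
        _ = p / 2 * (p : ℝ) ^ (3 / 2 + ε) := by rw [g3]; ring
        _ ≤ (p - 1) * (l₁ * l₂) := mul_le_mul (by linarith) harea (by positivity) (by linarith))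
  have hx0 := hx 0
  have hx1 := hx 1
  simp only [Matrix.cons_val_zero, Matrix.cons_val_one] at hx0 hx1
  have hnp : ((n : ZMod p)).val = n := by
    rw [Finset.mem_Ioc] at hn
    have := hpp.two_le
    exact ZMod.val_cast_of_lt (by omega)
  rw [hnp] at hx0
  refine ⟨n, (γ ^ n).val, hx0.1, hx0.2.1, hx1.1, hx1.2.1, (ZMod.natCast_zmod_val _).symm, ?_⟩
  rintro q hq (hqx | hqx)
  · refine hx0.2.2 q hq ?_
    rw [← ZMod.natCast_eq_natCast_iff] at hqx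
    exact hqx
  · refine hx1.2.2 q hq ?_
    rw [← ZMod.natCast_eq_natCast_iff, ZMod.natCast_zmod_val] at hqx
    exact hqx

end Pool.Agent.X67.AP
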